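import Pool.Agent.H820.PN.Fin
import Pool.Graph.R_seed8.W305.NC.Qu

set_option autoImplicit false

/-!
# Complex structures on two-step nilmanifolds with commutator group of dimension at most four

Let `G` be a simply connected two-step nilpotent Lie group of real dimension `2k`. It is given by its
Lie algebra: a real vector space `V` with a Lie bracket `β` such that `[[x, y], z] = 0`, and the
product of `G` is `x * y = x + y + [x, y] / 2`. We assume

* `dim [G, G] ≤ 4`;
* there is a linear functional `μ` on `V` such that the radical of the alternating form `μ([x, y])` is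
  the center of `V` (by Moore and Wolf this means that `G` has square integrable irreducible
  representations modulo its center).

Then

* `G` has a left-invariant complex structure: there is a `J : V → V` with `J² = -1` and vanishing
  Nijenhuis tensor.

* `G` has a global smooth system of coordinates with values in `ℂ ^ k` in which all left translations
  are complex affine maps.

* Let `M` be a smooth manifold of dimension `2k` which is a quotient of `G` by left translations, for
  example a compact nilmanifold `Γ \ G`. Then `M` carries a complex structure: `M` is diffeomorphic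
  to a complex manifold of dimension `k`.

For example this holds for the principal bundles over a torus `T^{2m}` with fibre `T⁴` such that the
`m`-th power of some linear combination of the Chern classes is not zero.

For `dim [G, G] ≤ 2` the library has the theorem without the condition on `μ`. In the case of
commutator dimension three or four one needs two complex linear combinations of the structure forms
without `(0,2)`-part.

Proof. Let `U = V / center`, `dim U = 2m`, and let `F, G, F', G'` be the compositions of the bracket
`U × U → center` with a basis `λ, μ, λ', μ'` of the functionals on a four dimensional central subspace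
which contains the commutators (`G` is nondegenerate). We look for a complex structure `J` of `U` and
a number `s ∉ ℝ` such that `p = F + s F'` and `q = G + s G'` have no part of type `(0,2)`; the complex
structure `K` of the center is the one for which `λ + s λ'` and `μ + s μ'` are complex linear.

* Over every infinite field, a pair `p`, `q` of alternating forms, `q` nondegenerate, has a
  common linear symmetry `A` with `A² = -1`: with `p(u, v) = q(Tu, v)` and a vector `x` whose order
  is the minimal polynomial of `T` (degree `d`) one finds `y` with `q(T^i x, y) = 1` for `i = d - 1` and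
  `= 0` for `i < d - 1`; the vectors `T^i x`, `T^i y`, `i < d`, span a nondegenerate `T`-invariant
  subspace on which `T^i x ↦ T^i y ↦ - T^i x` is a symmetry; induction on the dimension.

* We apply this over the field `ℝ(s)` to `p = F + s F'`, `q = G + s G'`. At a real point `s₀` which is
  not a pole `A(s₀)` is real. For a point `s ∉ ℝ` near `s₀` the space `L` of all vectors `v` with
  `A(s) v = - i v` is isotropic for `p` and `q` (`p(u, v) = p(Au, Av) = - p(u, v)`), and it is close to
  that for `s₀`, hence complementary to its complex conjugate. `J = Re A (1 - Im A)⁻¹` is the complex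
  structure of `U` for which the vectors of `L` are those of type `(0,1)`.

The parts of the proof in `Pool/Agent/H820/PN` were written by helper881 (`Cyc`), helper746 (`Split`),
helper271 (`Field`), helper229 (`Poly`), helper307 (`Cplx`), helper289 (`Real`), helper729 (`Pair`),
helper706 (`K`) from the plan of helper820 (`Stm`, `JK`, `Fin`).
-/

namespace Pool.Agent.Results.MP_1d980c_gt.CommutatorDimensionFour

open Complex Module
open scoped Manifold ContDiff

/-- `β` is the Lie bracket of a two-step nilpotent (or abelian) Lie algebra: it is alternating, and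
`[[x, y], z] = 0` for all `x`, `y`, `z`. -/
structure IsTwoStep {V : Type} [AddCommGroup V] [Module ℝ V] (β : V →ₗ[ℝ] V →ₗ[ℝ] V) : Prop where
  alt : ∀ x, β x x = 0
  step : ∀ x y z, β (β x y) z = 0

/-- The dimension of the commutator algebra, the span of all `[x, y]`. -/
noncomputable def commutatorDim {V : Type} [AddCommGroup V] [Module ℝ V]
    (β : V →ₗ[ℝ] V →ₗ[ℝ] V) : ℕ :=
  finrank ℝ (Submodule.span ℝ {v | ∃ x y, β x y = v})

/-- The product `x * y = x + y + [x, y] / 2` of the simply connected Lie group with Lie algebra `V`
(the Baker-Campbell-Hausdorff product). -/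
noncomputable def mul {V : Type} [AddCommGroup V] [Module ℝ V] (β : V →ₗ[ℝ] V →ₗ[ℝ] V)
    (x y : V) : V :=
  x + y + (1 / 2 : ℝ) • β x y

/-- The product is associative (so this is a group with neutral element `0` and inverse `-x`). -/
theorem mul_assoc' {V : Type} [AddCommGroup V] [Module ℝ V] {β : V →ₗ[ℝ] V →ₗ[ℝ] V}
    (h : IsTwoStep β) (x y z : V) : mul β (mul β x y) z = mul β x (mul β y z) := by
  have ha : ∀ p q, β p q = - β q p := fun p q => by
    have h1 := h.alt (p + q)
    simp only [map_add, LinearMap.add_apply, h.alt, zero_add, add_zero] at h1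
    exact eq_neg_of_add_eq_zero_right h1
  have h2 : β x (β y z) = 0 := by rw [ha, h.step, neg_zero]
  simp only [mul, map_add, map_smul, LinearMap.add_apply, LinearMap.smul_apply, h.step, h2,
    smul_zero, add_zero, smul_add]
  abel

/-- **Complex structures on two-step nilmanifolds with commutator group of dimension at most four.**
Let `V` be a two-step nilpotent Lie algebra of dimension `2k` with `dim [V, V] ≤ 4`, and let `μ` be a
linear functional on `V` such that every `x` with `μ([x, y]) = 0` for all `y` is central. -/
theorem result (k : ℕ) (V : Type) [NormedAddCommGroup V] [NormedSpace ℝ V]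
    [FiniteDimensional ℝ V] (hV : finrank ℝ V = 2 * k) (β : V →ₗ[ℝ] V →ₗ[ℝ] V)
    (h : IsTwoStep β) (hD : commutatorDim β ≤ 4)
    (μ : V →ₗ[ℝ] ℝ) (hμ : ∀ x, (∀ y, μ (β x y) = 0) → ∀ y, β x y = 0) :
    -- a left-invariant complex structure
    (∃ J : V →ₗ[ℝ] V, (∀ x, J (J x) = -x) ∧
      ∀ x y, β (J x) (J y) - J (β (J x) y) - J (β x (J y)) - β x y = 0) ∧
    -- global coordinates in which the left translations are complex affine
    (∃ Φ : V ≃ₜ EuclideanSpace ℂ (Fin k), ContDiff ℝ ∞ Φ ∧ ContDiff ℝ ∞ Φ.symm ∧
      ∀ g : V, ∃ (c : EuclideanSpace ℂ (Fin k))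
        (L : EuclideanSpace ℂ (Fin k) →L[ℂ] EuclideanSpace ℂ (Fin k)),
        ∀ z, Φ (mul β g (Φ.symm z)) = c + L z) ∧
    -- smooth manifolds which are quotients by left translations carry complex structures
    (∀ (M : Type) [TopologicalSpace M] [ChartedSpace (EuclideanSpace ℝ (Fin (2 * k))) M]
      [IsManifold (𝓡 (2 * k)) ∞ M] (Γ : Set V) (π : V → M), Function.Surjective π →
      IsLocalDiffeomorph 𝓘(ℝ, V) (𝓡 (2 * k)) ∞ π →
      (∀ x y, π x = π y ↔ ∃ γ ∈ Γ, mul β γ x = y) →
      ∃ (N : Type) (_ : TopologicalSpace N) (_ : ChartedSpace (EuclideanSpace ℂ (Fin k)) N),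
        IsManifold 𝓘(ℂ, EuclideanSpace ℂ (Fin k)) ∞ N ∧
        Nonempty (Diffeomorph (𝓡 (2 * k)) 𝓘(ℝ, EuclideanSpace ℂ (Fin k)) M N ∞)) := by
  obtain ⟨J, Φ0, h1, h2, h3, h4, h5⟩ :=
    Pool.Agent.H820.PN.coords_four β h.alt h.step hV hD μ hμ
  let Φ : V ≃ₜ EuclideanSpace ℂ (Fin k) :=
    { toEquiv := Φ0
      continuous_toFun := h3.continuous
      continuous_invFun := h4.continuous }
  have h5' : ∀ g : V, ∃ (c : EuclideanSpace ℂ (Fin k))
        (L : EuclideanSpace ℂ (Fin k) →L[ℂ] EuclideanSpace ℂ (Fin k)),
        ∀ z, Φ (mul β g (Φ.symm z)) = c + L z := h5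
  refine ⟨⟨J, h1, h2⟩, ⟨Φ, h3, h4, h5'⟩, ?_⟩
  intro M _ _ _ Γ π hs hl hπ
  refine Pool.Agent.W305.NC.quotient Φ π hl h3 h4 {g | ∃ γ ∈ Γ, g = mul β γ} ?_ ?_ hs
  · rintro g ⟨γ, -, rfl⟩
    obtain ⟨c, L, hL⟩ := h5' γ
    have : (fun z => Φ (mul β γ (Φ.symm z))) = fun z => c + L z := funext hL
    rw [this]
    exact contDiff_const.add L.contDiff
  · intro x y
    rw [hπ]
    constructor
    · rintro ⟨γ, hγ, hxy⟩
      exact ⟨mul β γ, ⟨γ, hγ, rfl⟩, hxy⟩
    · rintro ⟨g, ⟨γ, hγ, rfl⟩, hxy⟩
      exact ⟨γ, hγ, hxy⟩

end Pool.Agent.Results.MP_1d980c_gt.CommutatorDimensionFour
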