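import Pool.Agent.H820.TC.Fin6
import Pool.Agent.H820.TC.Final

/-!
# Complex structures on principal torus bundles over the six-torus

Let `G` be a simply connected two-step nilpotent Lie group of real dimension `2n + 6` with a central
vector subgroup `V` of dimension `2n` which contains the commutator group, so `G / V = U` is a vector
group of dimension six. As a manifold `G` is `U × V`, and its product is
`(u, x) (v, y) = (u + v, x + y + β(u, v) / 2)` with an alternating bilinear map `β`. If `n = 2` we
assume that the commutator group has dimension at most two; for `n ≠ 2` there is no condition on `β`.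

Let `Γ` be a set of elements of `G` whose image in `G / V` is contained in a lattice, and let `M` be a
smooth manifold of dimension `2n + 6` which is the quotient of `G` by the left translations with the
elements of `Γ`. Then `M` is diffeomorphic to a complex manifold.

For example, all principal bundles over the torus `T⁶` with fibre a torus `T^{2n}`, `n ≠ 2`, are
compact quotients of this kind (their Chern classes are given by `2n` arbitrary alternating integral
forms on `ℤ⁶`). They are parallelizable, hence almost complex.

Proof. Let `w` be the dimension of the commutator group.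

* `w ≤ 2`: there are global coordinates in which the left translations are complex affine (library).

* `w ≤ 6 ⌊n/3⌋`. Let `z ∈ ℂ³ = U`, and let `s : ℂ³ → ℂ⁴` be given by theta functions of degree two:
  `s` has no zeros and `s(z + λ) = χ_λ(z) s(z)` for `λ ∈ ℤ[i]³`. The space `ℝ⁶` is identified with the
  real skew forms `X(x)` in the complex skew `4 × 4` matrices (the twistor construction: the complex
  structures of `ℝ⁶` given by `x ↦ X(x) s` for the points `[s]` of `ℂℙ³ = SO(6) / U(3)`). On a block
  `ℝ⁶` of the commutator group the functions `u = X(x) s(z) + h(z)` are the complex coordinates; they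
  satisfy one linear equation `∑ s_k(z) u_k = ψ(z)`. The `(0,2)`-part of `β` is killed by the explicit
  smooth function `h = ∑ conj(z_m) A_m(z) + ½ ∑_{l<m} conj(z_l) conj(z_m) S_{lm} s(z) +
  φ(z) conj(s(z)) / |s(z)|²`, with `A_m = - ½ ∑_k z_k Q_{km} s + ∑_{l<m} S_{lm} (c⁻¹ ∂_l s - z_l s)`.
  The left translations become `u ↦ χ_λ(z) (u + X(y) s(z) + B_λ(z))` with `B_λ` holomorphic.

* `w ≥ 7`, so `n ≥ 4`: there is a left-invariant complex structure. The kernel of `Λ² U → V` is a space
  `D` of at most `8` dimensions of alternating forms on `U^*`, and there is a complex structure `J` of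
  `U^*` such that no nonzero form of `D` is of type `(2,0) + (0,2)` (see `TwoStepCodimension`).

The parts of the proof in `Pool/Agent/H820/T6` were written by helper722 (`ALG`), helper662 (`Theta1`,
with the theta functions of the library module `T6/H65/Th/Theta`), helper215 (`Theta3`), helper672
(`Exp`, `Block`), helper289 (`Der`), helper980 (`H1f`), helper643 (`Hol`), helper881 (`Phi`),
helper791 (`Sum`, `Smooth`, `Lin`), helper618 (`Chart`, `Qu`), those in `Pool/Agent/H820/TC` by
helper323 (`MR`, `Count`), helper263 (`E1`), helper47 (`E2`), helper30 (`Step`), helper236 (`Dual`),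
from the plan of helper820 (the other files).
-/

set_option autoImplicit false

namespace Pool.Agent.Results.MP_1d980c_gt.TorusBundlesOverSixTorus

open Module
open scoped Manifold ContDiff

variable {U V : Type} [NormedAddCommGroup U] [NormedSpace ℝ U] [NormedAddCommGroup V]
  [NormedSpace ℝ V]

/-- The product `(u, x) (v, y) = (u + v, x + y + β(u, v) / 2)` on `U × V`; for alternating bilinear `β`
this is a simply connected two-step nilpotent Lie group (abelian if `β = 0`), `{0} × V` is central and
the commutators are the elements of `{0} × V` of the form `(0, β(u, v))`. -/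
noncomputable def mul (β : U →ₗ[ℝ] U →ₗ[ℝ] V) (g h : U × V) : U × V :=
  (g.1 + h.1, g.2 + h.2 + (1 / 2 : ℝ) • β g.1 h.1)

/-- **Complex structures on principal torus bundles over the six-torus.** Let `β : U × U → V` be an
alternating bilinear map, `dim V = 2n`; if `n = 2` suppose that the span of the values of `β` has
dimension at most two. Let `e` be a basis of `U` with six elements, and let `M` be a smooth manifold of
dimension `2 (n + 3)` which is a quotient of the group `G = U × V` by left translations with elements
`γ` whose components in `U` belong to the lattice generated by `e`: there is a surjective local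
diffeomorphism `π` from `G` to `M` whose fibres are the orbits. Then `M` is diffeomorphic to a complex
manifold. -/
theorem result [FiniteDimensional ℝ V] (n : ℕ) (hV : finrank ℝ V = 2 * n)
    (β : U →ₗ[ℝ] U →ₗ[ℝ] V) (hβ : ∀ u, β u u = 0)
    (hn : n = 2 → finrank ℝ (Submodule.span ℝ {v | ∃ x y, β x y = v}) ≤ 2)
    (M : Type) [TopologicalSpace M] [ChartedSpace (EuclideanSpace ℝ (Fin (2 * (n + 3)))) M]
    [IsManifold (𝓡 (2 * (n + 3))) ∞ M]
    (e : Basis (Fin 6) ℝ U)
    (Γ : Set (U × V)) (hΓ : ∀ γ ∈ Γ, ∃ a : Fin 6 → ℤ, γ.1 = ∑ i, a i • e i)
    (π : U × V → M) (hs : Function.Surjective π)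
    (hl : IsLocalDiffeomorph 𝓘(ℝ, U × V) (𝓡 (2 * (n + 3))) ∞ π)
    (hπ : ∀ x y, π x = π y ↔ ∃ γ ∈ Γ, mul β γ x = y) :
    ∃ (X : Type) (_ : TopologicalSpace X)
      (_ : ChartedSpace (EuclideanSpace ℂ (Fin (n + 3))) X),
      IsManifold 𝓘(ℂ, EuclideanSpace ℂ (Fin (n + 3))) ∞ X ∧
      Nonempty (Diffeomorph (𝓡 (2 * (n + 3))) 𝓘(ℝ, EuclideanSpace ℂ (Fin (n + 3))) M X ∞) :=
  Pool.Agent.H820.TC.final6 Pool.Agent.H820.TC.dual U V n hV β hβ hn e M Γ hΓ π hs hl hπ

end Pool.Agent.Results.MP_1d980c_gt.TorusBundlesOverSixTorus
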