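import Pool.Agent.H820.F3.Final

/-!
# Complex structures on principal torus bundles over products of three surfaces

Let `S₀`, `S₁`, `S₂` be closed oriented surfaces of positive genus, each of them the square torus
`ℂ / ℤ[i]` or a hyperbolic surface `Γ \ ℍ`, `Γ ⊆ SL(2, ℝ)`. So `S₀ × S₁ × S₂ = G \ D`, where `D ⊆ ℂ³`
is the product of the universal coverings and `G = G₀ × G₁ × G₂` the product of the fundamental
groups. Let `V` be a real vector space of dimension `2n`, `K` an additive subgroup, and let
`b g : D → V`, `g ∈ G`, be a smooth cocycle up to constants in `K`: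
`b (g h) (z) - b h (z) - b g (h z) ∈ K` is constant. Let `M` be a smooth manifold of dimension `2n + 6`
which is the quotient of `D × V` by the maps `(z, x) ↦ (g z, x + b g z + v)`, `g ∈ G`, `v ∈ K`. We assume
that for `i ≠ j` the commutators of the lifts of `g ∈ Gᵢ` and `h ∈ Gⱼ` belong to a subspace `W` of `V`
with `dim W ≤ 6 ⌊n/3⌋`. Then `M` is diffeomorphic to a complex manifold.

If `K` is a lattice, then `M` is a principal bundle over `S₀ × S₁ × S₂` with the group `V / K`, the
torus `T^{2n}`, and all such bundles are obtained, since they are trivial over `D`. For `n = 3r` there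
is no condition on the commutators (`W = V`): **all principal `T^{6r}`-bundles over products of three
closed oriented surfaces of positive genus have complex structures.** In general the commutators are
the parts in `H¹(Sᵢ) ⊗ H¹(Sⱼ) ⊗ V`, `i < j`, of the Chern class. The bundles have the almost complex
structures which come from the base and a complex structure of `V`.

Proof.

* One factor `C = G \ D` with a line bundle of large degree, given by a factor of automorphy `χ`: there
  are two holomorphic sections `a`, `b` without common zeros (theta functions, resp. automorphic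
  forms), a smooth partition of unity `ψ_g(z) = ρ(g z)`, and the equation `∂̄ h = φ` can be solved in the
  smooth functions with the factors `χ`, `χ²`: `h = ∑_g χ_g⁻¹ · u(g z)`, a Poincaré series, where `u` is
  a solution of `∂̄ u = ρ φ` which decays fast. (For `χ = 1` it cannot be solved.)

* Normal form of a real cocycle `b`: after the change of `b` by `u (g z) - u z` with
  `u = ∑_g ψ_g(z) (…)`, one has for `h ∈ Gⱼ` that `b h = e_h(z_j) + ∑_k β_k(h) f_k(z_i)`, `i < j`, where
  the `β_k` are homomorphisms of `Gⱼ`, and the functions `f_k` have constant periods.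

* Let `s : D → ℂ⁴` be given by the coefficients of the polynomial `∏ (a_i(z_i) + b_i(z_i) t)`. It has no
  zeros, and `s (g z) = χ_g(z) s(z)`. The space `ℝ⁶` is identified with the real skew forms `X(x)` in
  the complex skew `4 × 4` matrices (twistor construction, `ℂℙ³ = SO(6) / U(3)`). On a block `ℝ⁶` of `V`
  the complex coordinates are `u = X(x) s(z) + h(z)`; they satisfy one holomorphic equation
  `∑ s_k u_k = ψ(z)`. For the term `β(h) f(z_i)` of `b`, and a function `g(z_j)` with
  `g (h z_j) = g(z_j) - β(h)`, one takes `h = g(z_j) X(v) s^f + φ conj(s) / |s|²`. Here `s^f` comes from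
  `s` if `a_i`, `b_i` are replaced by the solutions of the `∂̄`-equation for `a_i ∂̄f`, `b_i ∂̄f`. The
  function `sᵀ X(v) s^f` is holomorphic, and `φ` is found from the `∂̄`-equation for the products of it
  with `∂̄g`, which are sections of the square of the line bundle.

* The further `2n - 6 ⌊n/3⌋` coordinates have no mixed part, and can be made holomorphic directly.

The parts of the proof in `Pool/Agent/H820/F3` were written by helper161 (`Series`), helper75 (`CSB`),
helper630 (`CSK`), helper727 (`TPart`, `TPair`), helper47 (`TDBS`), helper860 (`TSolv`), helper415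
(`HCut`), helper947 (`HRest`), helper196 (`HSum`), helper974 (`HSolv`), helper588 (`HPair`), helper263
(`Gauge`), helper333 (`Homd`), helper782 (`Diag`), helper284 (`SV`), helper599 (`Term`), helper828
(`Chart`), helper227 (`Qu`), helper363 (`Lin`), those in `Pool/Agent/H820/T6` by helper722 (`ALG`) and
helper672 (`Block`), from the plan of helper820 (the other files).
-/

set_option autoImplicit false

namespace Pool.Agent.Results.MP_1d980c_gt.TorusBundlesOverSurfaceProducts

open Module Pool.Agent.H820.F3
open scoped Manifold ContDiff

/-- the three universal coverings `(S i).cur.D`, groups `(S i).cur.G` and actions `(S i).cur.act` -/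
noncomputable abbrev cov (S : Fin 3 → Surface) : Fin 3 → Cur := fun i => (S i).cur

/-- **Complex structures on principal torus bundles over products of three surfaces.** Let `S i` be
closed surfaces of positive genus, `V` a real vector space of dimension `2n`, `K` an additive subgroup
of `V`, `b` a cocycle up to constants in `K` of the group `Gp = ∏ (S i).cur.G` on the domain
`Dm = ∏ (S i).cur.D ⊆ ℂ³`. Suppose that the commutators `cm` of the lifts of elements of two different
factors belong to a subspace `W` of dimension at most `6 ⌊n/3⌋`. Let `M` be a smooth manifold of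
dimension `2 (n + 3)` which is the quotient of `Dm × V` by the maps
`(z, x) ↦ (γ z, x + b γ z + v)`, `v ∈ K`: there is a local diffeomorphism `π` from `Dm × V` onto `M`
whose fibres are the orbits. Then `M` is diffeomorphic to a complex manifold. -/
theorem result (S : Fin 3 → Surface)
    (V : Type) [NormedAddCommGroup V] [NormedSpace ℝ V] [FiniteDimensional ℝ V] (n : ℕ)
    (hV : finrank ℝ V = 2 * n) (W : Submodule ℝ V) (hW : finrank ℝ W ≤ 6 * (n / 3))
    (K : AddSubgroup V) (b : Gp (cov S) → (Fin 3 → ℂ) → V) (hb : Coc (cov S) (K : Set V) b)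
    (hcm : ∀ i j, i ≠ j → ∀ g h, ∀ z ∈ Dm (cov S), cm (cov S) b i j g h z ∈ W)
    (M : Type) [TopologicalSpace M] [ChartedSpace (EuclideanSpace ℝ (Fin (2 * (n + 3)))) M]
    [IsManifold (𝓡 (2 * (n + 3))) ∞ M]
    (π : (Fin 3 → ℂ) × V → M)
    (hl : IsLocalDiffeomorphOn 𝓘(ℝ, (Fin 3 → ℂ) × V) (𝓡 (2 * (n + 3))) ∞ π
      {p | p.1 ∈ Dm (cov S)})
    (hπ : ∀ x y : (Fin 3 → ℂ) × V, x.1 ∈ Dm (cov S) → y.1 ∈ Dm (cov S) →
      (π x = π y ↔ ∃ γ, ∃ v ∈ K, y = (actm (cov S) γ x.1, x.2 + b γ x.1 + v)))
    (hs : ∀ m : M, ∃ x : (Fin 3 → ℂ) × V, x.1 ∈ Dm (cov S) ∧ π x = m) :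
    ∃ (N : Type) (_ : TopologicalSpace N)
      (_ : ChartedSpace (EuclideanSpace ℂ (Fin (n + 3))) N),
      IsManifold 𝓘(ℂ, EuclideanSpace ℂ (Fin (n + 3))) ∞ N ∧
      Nonempty (Diffeomorph (𝓡 (2 * (n + 3))) 𝓘(ℝ, EuclideanSpace ℂ (Fin (n + 3))) M N ∞) :=
  final3 S V n hV W hW b K hb hcm M π hl hπ hs

end Pool.Agent.Results.MP_1d980c_gt.TorusBundlesOverSurfaceProducts
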